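import Pool.Agent.Helper57.NW.Defs

/-!
# Project NW (MP_8958e8), blocks FL0 (`card_bd`) and FL1 (`bw_facts`): the scales and the flattened weights
-/

set_option autoImplicit false
open MeasureTheory Set Filter Topology
open Pool.Agent.Helper57.Zeta Pool.Agent.Helper57.LH Pool.Agent.Helper57.ED
open Pool.Agent.Helper54.LG (za zb qk SS MM)
open Pool.Agent.Helper93.UG (zc sp)
open Pool.Agent.Helper69.UG (XX NX)
open Pool.Agent.Helper57.TX (QX DP rs)
open Pool.Agent.Helper57.NS (Thick cnt)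
open Pool.Agent.Helper57.NW

namespace Pool.Agent.Helper84.NW

/-- the number of integers in an interval -/
lemma card_Icc84 {x y : ℝ} (hx : 0 ≤ x) (hxy : x + 1 ≤ y) :
    y - x - 1 ≤ ((Finset.Icc ⌈x⌉₊ ⌊y⌋₊).card : ℝ) ∧ ((Finset.Icc ⌈x⌉₊ ⌊y⌋₊).card : ℝ) ≤ y - x + 1 := by
  have hy : 0 ≤ y := by linarith
  have a1 : (⌊y⌋₊ : ℝ) ≤ y := Nat.floor_le hy
  have a2 : y < ⌊y⌋₊ + 1 := Nat.lt_floor_add_one _
  have a3 : x ≤ ⌈x⌉₊ := Nat.le_ceil _
  have a4 : (⌈x⌉₊ : ℝ) < x + 1 := Nat.ceil_lt_add_one hx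
  have hab : ⌈x⌉₊ ≤ ⌊y⌋₊ := by
    have h1 : (⌈x⌉₊ : ℝ) < ⌊y⌋₊ + 1 := by linarith
    have h2 : ⌈x⌉₊ < ⌊y⌋₊ + 1 := by exact_mod_cast h1
    omega
  rw [Nat.card_Icc, Nat.cast_sub (by omega)]
  push_cast
  exact ⟨by linarith, by linarith⟩

/-- the scales form an interval of integers -/
lemma sc_eq {k d R L : ℝ} (hk : 0 < k) (hk8 : k ≤ 1 / 8) (hd : 0 < d) (_hd1 : d ≤ 1) (hL : Real.exp (1 / d) ≤ L)
    (hR : 1 ≤ R) (hRL : R ≤ L ^ (1 - d)) : 0 < Real.log (1 + k) ∧ Real.log (1 + k) ≤ k ∧ 1 ≤ Real.log (L / R) ∧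
    ∃ x y : ℝ, 0 ≤ x ∧ Real.log R = x * Real.log (1 + k) ∧ 8 ≤ y ∧ Real.log (L / R) = y * Real.log (1 + k) ∧
      Sc k R L = Finset.Icc ⌈x + k * y⌉₊ ⌊x + (1 - k) * y⌋₊ := by
  have hL0 : 0 < L := (Real.exp_pos _).trans_le hL
  have hR0 : 0 < R := by linarith
  have hU0 : 0 < L / R := by positivity
  have hl : 1 / d ≤ Real.log L := by rwa [Real.le_log_iff_exp_le hL0]
  have hl1 : 1 ≤ d * Real.log L := by
    rw [div_le_iff₀ hd] at hl
    linarith
  have hlb : 0 < Real.log (1 + k) := Real.log_pos (by linarith)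
  have h1 : Real.log (1 + k) ≤ k := by
    have := Real.log_le_sub_one_of_pos (show 0 < 1 + k by linarith)
    linarith
  have hlR : 0 ≤ Real.log R := Real.log_nonneg hR
  have hlR2 : Real.log R ≤ (1 - d) * Real.log L := by
    have := Real.log_le_log hR0 hRL
    rwa [Real.log_rpow hL0] at this
  have hlU : Real.log (L / R) = Real.log L - Real.log R := Real.log_div hL0.ne' hR0.ne'
  have hU1 : 1 ≤ Real.log (L / R) := by rw [hlU]; linarith
  obtain ⟨x, hx⟩ : ∃ x, x = Real.log R / Real.log (1 + k) := ⟨_, rfl⟩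
  obtain ⟨y, hy⟩ : ∃ y, y = Real.log (L / R) / Real.log (1 + k) := ⟨_, rfl⟩
  have hx1 : Real.log R = x * Real.log (1 + k) := by rw [hx]; field_simp
  have hy1 : Real.log (L / R) = y * Real.log (1 + k) := by rw [hy]; field_simp
  have hx0 : 0 ≤ x := by rw [hx]; positivity
  have hy8 : 8 ≤ y := by
    rw [hy, le_div_iff₀ hlb]
    linarith
  refine ⟨hlb, h1, hU1, x, y, hx0, hx1, hy8, hy1, ?_⟩
  have e1 : ∀ j : ℕ, R * (L / R) ^ k ≤ (1 + k) ^ j ↔ x + k * y ≤ j := by
    intro j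
    rw [← Real.log_le_log_iff (by positivity) (by positivity), Real.log_mul hR0.ne' (by positivity), Real.log_rpow hU0,
      Real.log_pow, hx1, hy1]
    have e : x * Real.log (1 + k) + k * (y * Real.log (1 + k)) = (x + k * y) * Real.log (1 + k) := by ring
    rw [e]
    exact mul_le_mul_iff_left₀ hlb
  have hLl : Real.log L = (x + y) * Real.log (1 + k) := by
    have : Real.log L = Real.log (L / R) + Real.log R := by rw [hlU]; ring
    rw [this, hx1, hy1]
    ring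
  have e2 : ∀ j : ℕ, (1 + k) ^ j ≤ L * (L / R) ^ (-k) ↔ (j : ℝ) ≤ x + (1 - k) * y := by
    intro j
    rw [← Real.log_le_log_iff (by positivity) (by positivity), Real.log_mul hL0.ne' (by positivity), Real.log_rpow hU0,
      Real.log_pow, hLl, hy1]
    have e : (x + y) * Real.log (1 + k) + -k * (y * Real.log (1 + k)) = (x + (1 - k) * y) * Real.log (1 + k) := by ring
    rw [e]
    exact mul_le_mul_iff_left₀ hlb
  have hnn : 0 ≤ x + (1 - k) * y := by nlinarith
  ext j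
  unfold Sc
  rw [Finset.mem_filter, Finset.mem_range, Finset.mem_Icc, e1, e2, Nat.ceil_le, Nat.le_floor_iff hnn]
  constructor
  · rintro ⟨-, h1, h2⟩
    exact ⟨h1, h2⟩
  · rintro ⟨h3, h4⟩
    refine ⟨?_, h3, h4⟩
    have h5 : k / (1 + k) ≤ Real.log (1 + k) := by
      have := Real.one_sub_inv_le_log_of_pos (show 0 < 1 + k by linarith)
      have e : 1 - (1 + k)⁻¹ = k / (1 + k) := by field_simp; ring
      rwa [e] at this
    have h6 : (j : ℝ) * (k / (1 + k)) ≤ Real.log L := by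
      calc (j : ℝ) * (k / (1 + k)) ≤ j * Real.log (1 + k) := mul_le_mul_of_nonneg_left h5 (Nat.cast_nonneg j)
        _ ≤ (x + y) * Real.log (1 + k) := mul_le_mul_of_nonneg_right (by nlinarith) hlb.le
        _ = Real.log L := hLl.symm
    have h7 : Real.log L ≤ L / 2 := by
      have h8 := Real.log_le_sub_one_of_pos (show 0 < L / 2 by positivity)
      rw [Real.log_div hL0.ne' (by norm_num)] at h8
      have := Real.log_two_lt_d9
      linarith
    have h9 : (j : ℝ) ≤ L / k := by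
      rw [le_div_iff₀ hk]
      have h10 : (j : ℝ) * k = (j : ℝ) * (k / (1 + k)) * (1 + k) := by field_simp
      rw [h10]
      nlinarith
    have h11 : j ≤ ⌊L / k⌋₊ := Nat.le_floor h9
    omega

/-- FL0: the number of the scales -/
theorem card_bd {k d : ℝ} (hk : 0 < k) (hk8 : k ≤ 1 / 8) (hd : 0 < d) (hd1 : d ≤ 1) : ∃ C : ℝ, 1 ≤ C ∧ ∀ R L : ℝ, C ≤ L →
    1 ≤ R → R ≤ L ^ (1 - d) →
    |((Sc k R L).card : ℝ) * Real.log (1 + k) - (1 - 2 * k) * Real.log (L / R)| ≤ Real.log (1 + k) := by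
  refine ⟨Real.exp (1 / d), Real.one_le_exp (by positivity), fun R L hL hR hRL => ?_⟩
  obtain ⟨hlb, -, -, x, y, hx, -, hy, hyl, he⟩ := sc_eq hk hk8 hd hd1 hL hR hRL
  obtain ⟨c1, c2⟩ := card_Icc84 (x := x + k * y) (y := x + (1 - k) * y) (by positivity) (by nlinarith)
  rw [← he] at c1 c2
  rw [hyl, abs_le]
  constructor
  · nlinarith
  · nlinarith

/-! ### the weights -/

/-- the difference -/
noncomputable def Df (b : ℕ → ℝ) (j : ℕ) : ℝ := (if j = 0 then 0 else b (j - 1)) - b j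

/-- the constant of one step -/
noncomputable def Ak (k : ℝ) : ℝ := 1 / (1 - 1 / (1 + k) ^ 2)

lemma Ak_pos {k : ℝ} (hk : 0 < k) : 1 ≤ Ak k := by
  unfold Ak
  have h1 : 1 < (1 + k) ^ 2 := by nlinarith
  have h2 : 1 / (1 + k) ^ 2 < 1 := by rw [div_lt_one (by linarith)]; exact h1
  have h3 : 0 < 1 / (1 + k) ^ 2 := by positivity
  rw [le_div_iff₀ (by linarith)]
  linarith

lemma step_const {k : ℝ} (hk : 0 < k) {m : ℕ} (hm : 1 ≤ m) : 0 < 1 - 1 / (1 + k) ^ (2 * m) ∧
    1 / (1 - 1 / (1 + k) ^ (2 * m)) ≤ Ak k ∧ 0 < 1 / (1 + k) ^ (2 * m) ∧ 1 / (1 + k) ^ (2 * m) ≤ 1 := by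
  have h1 : 1 < (1 + k) ^ 2 := by nlinarith
  have h2 : (1 + k) ^ 2 ≤ (1 + k) ^ (2 * m) := pow_le_pow_right₀ (by linarith) (by omega)
  have h3 : 1 / (1 + k) ^ (2 * m) ≤ 1 / (1 + k) ^ 2 := one_div_le_one_div_of_le (by linarith) h2
  have h4 : 1 / (1 + k) ^ 2 < 1 := by rw [div_lt_one (by linarith)]; exact h1
  refine ⟨by linarith, ?_, by positivity, by linarith⟩
  unfold Ak
  exact one_div_le_one_div_of_le (by linarith) (by linarith)

lemma shift_sum (f : ℕ → ℝ) (hf : ∀ j, 0 ≤ f j) (M : ℕ) :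
    ∑ j ∈ Finset.range M, (if j = 0 then 0 else f (j - 1)) ≤ ∑ j ∈ Finset.range M, f j := by
  rcases M with _ | M
  · simp
  · rw [Finset.sum_range_succ', Finset.sum_range_succ]
    simp only [Nat.add_sub_cancel, Nat.succ_ne_zero, if_false, if_true, add_zero]
    have := hf M
    have h : ∑ x ∈ Finset.range M, (if x + 1 = 0 then 0 else f x) = ∑ x ∈ Finset.range M, f x :=
      Finset.sum_congr rfl fun x _ => by simp
    linarith

/-- one step: the sum -/
lemma fl_sum {k : ℝ} (hk : 0 < k) {m : ℕ} (hm : 1 ≤ m) (b : ℕ → ℝ) (M : ℕ) :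
    ∑ j ∈ Finset.range M, |fl k m b j| ≤ 2 * Ak k * ∑ j ∈ Finset.range M, |b j| := by
  obtain ⟨h1, h2, h3, h4⟩ := step_const hk hm
  have hA := Ak_pos hk
  have h5 : ∀ j, |fl k m b j| ≤ Ak k * ((if j = 0 then 0 else |b (j - 1)|) + |b j|) := by
    intro j
    unfold fl
    rw [abs_div, abs_of_pos h1, div_eq_mul_one_div, mul_comm]
    apply mul_le_mul h2 _ (abs_nonneg _) (by linarith)
    refine (abs_sub _ _).trans (add_le_add ?_ ?_)
    · split_ifs <;> simp
    · rw [abs_div, div_eq_mul_one_div, abs_of_pos (by positivity : (0:ℝ) < (1 + k) ^ (2 * m))]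
      exact mul_le_of_le_one_right (abs_nonneg _) h4
  calc ∑ j ∈ Finset.range M, |fl k m b j| ≤ ∑ j ∈ Finset.range M, Ak k * ((if j = 0 then 0 else |b (j - 1)|) + |b j|) :=
        Finset.sum_le_sum fun j _ => h5 j
    _ = Ak k * (∑ j ∈ Finset.range M, (if j = 0 then 0 else |b (j - 1)|) + ∑ j ∈ Finset.range M, |b j|) := by
        rw [← Finset.mul_sum, Finset.sum_add_distrib]
    _ ≤ Ak k * (∑ j ∈ Finset.range M, |b j| + ∑ j ∈ Finset.range M, |b j|) := by
        apply mul_le_mul_of_nonneg_left _ (by linarith)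
        exact add_le_add (shift_sum (fun j => |b j|) (fun j => abs_nonneg _) M) le_rfl
    _ = _ := by ring

lemma fl_sub {k : ℝ} (hk : 0 < k) {m : ℕ} (hm : 1 ≤ m) (b : ℕ → ℝ) (j : ℕ) :
    fl k m b j - b j = Df b j / (1 - 1 / (1 + k) ^ (2 * m)) := by
  obtain ⟨h1, -, -, -⟩ := step_const hk hm
  unfold fl Df
  rw [eq_div_iff h1.ne', sub_mul, div_mul_cancel₀ _ h1.ne']
  ring

lemma Df_fl {k : ℝ} (m : ℕ) (b : ℕ → ℝ) (j : ℕ) : Df (fl k m b) j = fl k m (Df b) j := by
  unfold Df fl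
  rcases j with _ | j
  · simp
    ring
  · simp only [Nat.succ_ne_zero, if_false, Nat.add_sub_cancel]
    ring

/-- total variation -/
lemma var_bw {k R L : ℝ} (hk : 0 < k) (n M : ℕ) : ∑ j ∈ Finset.range M, |Df (bw k R L n) j| ≤
    (2 * Ak k) ^ n * ∑ j ∈ Finset.range M, |Df (bw k R L 0) j| := by
  have hA := Ak_pos hk
  induction n with
  | zero => simp
  | succ n ih =>
    have e : ∀ j, Df (bw k R L (n + 1)) j = fl k (n + 1) (Df (bw k R L n)) j := fun j => Df_fl (n + 1) _ j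
    simp only [e]
    refine (fl_sum hk (by omega) _ M).trans ?_
    calc 2 * Ak k * ∑ j ∈ Finset.range M, |Df (bw k R L n) j| ≤
          2 * Ak k * ((2 * Ak k) ^ n * ∑ j ∈ Finset.range M, |Df (bw k R L 0) j|) := by gcongr
      _ = _ := by ring

lemma sum_bw {k R L : ℝ} (hk : 0 < k) (n M : ℕ) : ∑ j ∈ Finset.range M, |bw k R L n j| ≤
    (2 * Ak k) ^ n * ∑ j ∈ Finset.range M, |bw k R L 0 j| := by
  have hA := Ak_pos hk
  induction n with
  | zero => simp
  | succ n ih =>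
    have e : ∀ j, bw k R L (n + 1) j = fl k (n + 1) (bw k R L n) j := fun j => rfl
    simp only [e]
    refine (fl_sum hk (by omega) _ M).trans ?_
    calc 2 * Ak k * ∑ j ∈ Finset.range M, |bw k R L n j| ≤
          2 * Ak k * ((2 * Ak k) ^ n * ∑ j ∈ Finset.range M, |bw k R L 0 j|) := by gcongr
      _ = _ := by ring

lemma diff_bw {k R L : ℝ} (hk : 0 < k) (n M : ℕ) : ∑ j ∈ Finset.range M, |bw k R L n j - bw k R L 0 j| ≤
    (∑ m ∈ Finset.range n, Ak k * (2 * Ak k) ^ m) * ∑ j ∈ Finset.range M, |Df (bw k R L 0) j| := by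
  have hA := Ak_pos hk
  induction n with
  | zero => simp
  | succ n ih =>
    have h1 : ∀ j, |bw k R L (n + 1) j - bw k R L 0 j| ≤ |bw k R L n j - bw k R L 0 j| + Ak k * |Df (bw k R L n) j| := by
      intro j
      have e : bw k R L (n + 1) j - bw k R L 0 j = (bw k R L n j - bw k R L 0 j) +
          (fl k (n + 1) (bw k R L n) j - bw k R L n j) := by
        have : bw k R L (n + 1) j = fl k (n + 1) (bw k R L n) j := rfl
        rw [this]
        ring
      rw [e, fl_sub hk (by omega)]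
      refine (abs_add_le _ _).trans (add_le_add le_rfl ?_)
      obtain ⟨h1, h2, -, -⟩ := step_const hk (m := n + 1) (by omega)
      rw [abs_div, abs_of_pos h1, div_eq_mul_one_div, mul_comm]
      exact mul_le_mul_of_nonneg_right h2 (abs_nonneg _)
    calc ∑ j ∈ Finset.range M, |bw k R L (n + 1) j - bw k R L 0 j| ≤
          ∑ j ∈ Finset.range M, (|bw k R L n j - bw k R L 0 j| + Ak k * |Df (bw k R L n) j|) :=
          Finset.sum_le_sum fun j _ => h1 j
      _ = ∑ j ∈ Finset.range M, |bw k R L n j - bw k R L 0 j| + Ak k * ∑ j ∈ Finset.range M, |Df (bw k R L n) j| := by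
          rw [Finset.sum_add_distrib, ← Finset.mul_sum]
      _ ≤ (∑ m ∈ Finset.range n, Ak k * (2 * Ak k) ^ m) * ∑ j ∈ Finset.range M, |Df (bw k R L 0) j| +
          Ak k * ((2 * Ak k) ^ n * ∑ j ∈ Finset.range M, |Df (bw k R L 0) j|) :=
          add_le_add ih (mul_le_mul_of_nonneg_left (var_bw hk n M) (by linarith))
      _ = _ := by rw [Finset.sum_range_succ]; ring

/-- the support of the weights -/
lemma supp_bw {k R L : ℝ} (hk : 0 < k) (hX : 0 < L * (L / R) ^ (-k)) (n : ℕ) : ∀ j, bw k R L n j ≠ 0 →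
    j ∈ Jw k L n ∧ R * (L / R) ^ k ≤ (1 + k) ^ j ∧ (1 + k) ^ j ≤ (1 + k) ^ n * (L * (L / R) ^ (-k)) := by
  induction n with
  | zero =>
    intro j hj
    have h1 : j ∈ Sc k R L := by
      by_contra h
      exact hj (by simp [bw, h])
    have h2 : j < ⌊L / k⌋₊ + 1 ∧ R * (L / R) ^ k ≤ (1 + k) ^ j ∧ (1 + k) ^ j ≤ L * (L / R) ^ (-k) := by
      simpa [Sc] using h1
    refine ⟨?_, h2.2.1, by rw [pow_zero, one_mul]; exact h2.2.2⟩
    unfold Jw
    rw [Finset.mem_range]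
    omega
  | succ n ih =>
    intro j hj
    have h1 : (j ≠ 0 ∧ bw k R L n (j - 1) ≠ 0) ∨ bw k R L n j ≠ 0 := by
      by_contra h
      push Not at h
      apply hj
      show fl k (n + 1) (bw k R L n) j = 0
      unfold fl
      rw [h.2]
      rcases Nat.eq_zero_or_pos j with h0 | h0
      · simp [h0]
      · rw [if_neg (by omega), h.1 (by omega)]
        simp
    have h1k : 1 ≤ 1 + k := by linarith
    rcases h1 with ⟨hj0, h⟩ | h
    · obtain ⟨a1, a2, a3⟩ := ih _ h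
      have e : (1 + k) ^ j = (1 + k) * (1 + k) ^ (j - 1) := by
        rw [← pow_succ']
        congr 1
        omega
      refine ⟨?_, ?_, ?_⟩
      · unfold Jw at a1 ⊢
        rw [Finset.mem_range] at a1 ⊢
        omega
      · exact a2.trans (pow_le_pow_right₀ h1k (by omega))
      · rw [e, pow_succ', mul_assoc]
        exact mul_le_mul_of_nonneg_left a3 (by linarith)
    · obtain ⟨a1, a2, a3⟩ := ih _ h
      refine ⟨?_, a2, ?_⟩
      · unfold Jw at a1 ⊢
        rw [Finset.mem_range] at a1 ⊢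
        omega
      · refine a3.trans ?_
        apply mul_le_mul_of_nonneg_right _ hX.le
        exact pow_le_pow_right₀ h1k (by omega)

/-- the variation of the plain weights -/
lemma var_zero {k R L : ℝ} {a b : ℕ} (h : Sc k R L = Finset.Icc a b) (M : ℕ) :
    ∑ j ∈ Finset.range M, |Df (bw k R L 0) j| ≤ 3 / ((Sc k R L).card : ℝ) := by
  obtain ⟨c, hc⟩ : ∃ c : ℝ, c = 3 / (2 * ((Sc k R L).card : ℝ)) := ⟨_, rfl⟩
  have hc0 : 0 ≤ c := by rw [hc]; positivity
  have hb0 : ∀ j, bw k R L 0 j = if a ≤ j ∧ j ≤ b then c else 0 := by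
    intro j
    show (if j ∈ Sc k R L then 3 / (2 * ((Sc k R L).card : ℝ)) else 0) = _
    rw [← hc, h]
    simp only [Finset.mem_Icc]
  have h1 : ∀ j, |Df (bw k R L 0) j| ≤ (if j = a then c else 0) + (if j = b + 1 then c else 0) := by
    intro j
    unfold Df
    rw [hb0, hb0]
    rcases Nat.eq_zero_or_pos j with h0 | h0
    · subst h0
      rw [if_pos rfl, zero_sub, abs_neg]
      split_ifs with g1 g2 g3 g4 g5 <;> first | (simp only [abs_of_nonneg hc0, abs_zero, add_zero, zero_add]; linarith) | omega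
    · rw [if_neg (by omega)]
      split_ifs with g1 g2 g3 g4 g5 g6 g7 g8 <;> first | (simp only [sub_self, sub_zero, zero_sub, abs_neg, abs_of_nonneg hc0, abs_zero, add_zero, zero_add]; linarith) | omega
  have h2 : ∀ i : ℕ, ∑ j ∈ Finset.range M, (if j = i then c else 0) ≤ c := by
    intro i
    rw [Finset.sum_ite_eq']
    split_ifs
    · exact le_rfl
    · exact hc0
  calc ∑ j ∈ Finset.range M, |Df (bw k R L 0) j| ≤
        ∑ j ∈ Finset.range M, ((if j = a then c else 0) + (if j = b + 1 then c else 0)) := Finset.sum_le_sum fun j _ => h1 j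
    _ ≤ c + c := by
        rw [Finset.sum_add_distrib]
        exact add_le_add (h2 _) (h2 _)
    _ = _ := by rw [hc, mul_comm (2 : ℝ), ← div_div]; ring

lemma sum_zero_le {k R L : ℝ} (M : ℕ) : ∑ j ∈ Finset.range M, |bw k R L 0 j| ≤ 3 / 2 := by
  obtain ⟨c, hc⟩ : ∃ c : ℝ, c = 3 / (2 * ((Sc k R L).card : ℝ)) := ⟨_, rfl⟩
  have hc0 : 0 ≤ c := by rw [hc]; positivity
  have hb0 : ∀ j, |bw k R L 0 j| = if j ∈ Sc k R L then c else 0 := by
    intro j
    show |(if j ∈ Sc k R L then 3 / (2 * ((Sc k R L).card : ℝ)) else 0)| = _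
    rw [← hc]
    split_ifs
    · exact abs_of_nonneg hc0
    · exact abs_zero
  simp only [hb0]
  rw [← Finset.sum_filter, Finset.sum_const, nsmul_eq_mul]
  have h1 : ((Finset.range M).filter (fun j => j ∈ Sc k R L)).card ≤ (Sc k R L).card :=
    Finset.card_le_card fun j hj => (Finset.mem_filter.1 hj).2
  have h2 : (((Finset.range M).filter (fun j => j ∈ Sc k R L)).card : ℝ) ≤ (Sc k R L).card := by exact_mod_cast h1
  rcases Nat.eq_zero_or_pos (Sc k R L).card with h0 | h0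
  · rw [h0] at h2
    have h3 : (((Finset.range M).filter (fun j => j ∈ Sc k R L)).card : ℝ) = 0 :=
      le_antisymm (by simpa using h2) (Nat.cast_nonneg _)
    rw [h3]
    norm_num
  · have h4 : (0 : ℝ) < (Sc k R L).card := by exact_mod_cast h0
    calc (((Finset.range M).filter (fun j => j ∈ Sc k R L)).card : ℝ) * c ≤ (Sc k R L).card * c := by gcongr
      _ = 3 / 2 := by rw [hc]; field_simp

/-- FL1: the weights -/
theorem bw_facts {k d : ℝ} (hk : 0 < k) (hk8 : k ≤ 1 / 8) (hd : 0 < d) (hd1 : d ≤ 1) (n : ℕ) : ∃ B C : ℝ, 1 ≤ B ∧ 1 ≤ C ∧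
    ∀ R L : ℝ, C ≤ L → 1 ≤ R → R ≤ L ^ (1 - d) →
    (∀ j, bw k R L n j ≠ 0 → j ∈ Jw k L n ∧ R * (L / R) ^ k ≤ (1 + k) ^ j ∧ (1 + k) ^ j ≤ (1 + k) ^ n * (L * (L / R) ^ (-k))) ∧
    ∑ j ∈ Jw k L n, |bw k R L n j| ≤ B ∧
    ∑ j ∈ Jw k L n, |bw k R L n j - bw k R L 0 j| ≤ B / Real.log (L / R) := by
  have hA := Ak_pos hk
  obtain ⟨S, hS⟩ : ∃ S : ℝ, S = ∑ m ∈ Finset.range n, Ak k * (2 * Ak k) ^ m := ⟨_, rfl⟩
  have hS0 : 0 ≤ S := by rw [hS]; exact Finset.sum_nonneg fun m _ => by positivity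
  have hp1 : 1 ≤ (2 * Ak k) ^ n := one_le_pow₀ (by linarith)
  refine ⟨(2 * Ak k) ^ n * (3 / 2) + S * 6, Real.exp (1 / d), by nlinarith, Real.one_le_exp (by positivity), ?_⟩
  intro R L hL hR hRL
  obtain ⟨hlb, hlk, hU1, x, y, hx, -, hy, hyl, he⟩ := sc_eq hk hk8 hd hd1 hL hR hRL
  have hL0 : 0 < L := (Real.exp_pos _).trans_le hL
  have hR0 : 0 < R := by linarith
  refine ⟨supp_bw hk (by positivity) n, ?_, ?_⟩
  · unfold Jw
    refine (sum_bw hk n _).trans ?_
    have := sum_zero_le (k := k) (R := R) (L := L) (⌊L / k⌋₊ + 1 + n)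
    calc (2 * Ak k) ^ n * ∑ j ∈ Finset.range (⌊L / k⌋₊ + 1 + n), |bw k R L 0 j| ≤ (2 * Ak k) ^ n * (3 / 2) := by gcongr
      _ ≤ _ := by linarith
  · unfold Jw
    refine (diff_bw hk n _).trans ?_
    rw [← hS]
    have h1 := var_zero he (⌊L / k⌋₊ + 1 + n)
    obtain ⟨c1, -⟩ := card_Icc84 (x := x + k * y) (y := x + (1 - k) * y) (by positivity) (by nlinarith)
    rw [← he] at c1
    have h2 : y / 2 ≤ ((Sc k R L).card : ℝ) := by nlinarith
    have h3 : 0 < ((Sc k R L).card : ℝ) := by linarith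
    have h4 : 3 / ((Sc k R L).card : ℝ) ≤ 6 / Real.log (L / R) := by
      rw [div_le_div_iff₀ h3 (by linarith), hyl]
      nlinarith
    calc S * ∑ j ∈ Finset.range (⌊L / k⌋₊ + 1 + n), |Df (bw k R L 0) j| ≤ S * (6 / Real.log (L / R)) :=
          mul_le_mul_of_nonneg_left (h1.trans h4) hS0
      _ = S * 6 / Real.log (L / R) := by ring
      _ ≤ _ := by
          apply div_le_div_of_nonneg_right _ (by linarith)
          have : 0 ≤ (2 * Ak k) ^ n * (3 / 2) := by positivity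
          linarith

end Pool.Agent.Helper84.NW
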